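import Pool.Agent.TH332.Opt.Cover

/-!
# Optimal potentials have a bounded set of finiteness

For all `d ≥ 1`, `0 < p ≤ 1`, `k ≥ 1`: every minimizer `V` of the `k`-th eigenvalue of `-Δ + V`
under `∫ V^(-p) ≤ 1` is infinite almost everywhere outside a ball; moreover its set of finiteness
is covered by a number `N = N(d, p, k)` of unit cubes that does not depend on the minimizer.
-/

set_option autoImplicit false
open MeasureTheory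
open scoped ENNReal

namespace Pool.Agent.Results.MP_5ab436_an.FinitenessSet

theorem result :
  ∀ d : ℕ, 1 ≤ d → ∀ p : ℝ, 0 < p → p ≤ 1 → ∀ k : ℕ, 1 ≤ k →
  ∀ lam : ((Fin d → ℝ) → ℝ≥0∞) → ℝ≥0∞,
   (∀ V : (Fin d → ℝ) → ℝ≥0∞, lam V =
     ⨅ (u : Fin k → (Fin d → ℝ) → ℝ) (g : Fin k → Fin d → (Fin d → ℝ) → ℝ)
       (_ : (∀ j, MemLp (u j) 2 volume) ∧ (∀ j i, MemLp (g j i) 2 volume) ∧
         (∀ j i (φ : (Fin d → ℝ) → ℝ), ContDiff ℝ ((⊤ : ℕ∞) : WithTop ℕ∞) φ →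
            HasCompactSupport φ →
            ∫ x, u j x * fderiv ℝ φ x (Pi.single i (1 : ℝ)) = - ∫ x, g j i x * φ x) ∧
         (∀ j, ∫⁻ x, V x * ENNReal.ofReal (u j x ^ 2) < ⊤) ∧
         (∀ c : Fin k → ℝ, c ≠ 0 →
            ∫⁻ x, ENNReal.ofReal ((∑ j, c j * u j x) ^ 2) ≠ 0)),
       ⨆ (c : Fin k → ℝ) (_ : c ≠ 0),
         (∫⁻ x, ((∑ i, ENNReal.ofReal ((∑ j, c j * g j i x) ^ 2))
              + V x * ENNReal.ofReal ((∑ j, c j * u j x) ^ 2))) /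
           ∫⁻ x, ENNReal.ofReal ((∑ j, c j * u j x) ^ 2)) →
   ∃ N : ℕ, ∀ V : (Fin d → ℝ) → ℝ≥0∞, Measurable V → ∫⁻ x, V x ^ (-p) ≤ 1 →
     (∀ W : (Fin d → ℝ) → ℝ≥0∞, Measurable W → ∫⁻ x, W x ^ (-p) ≤ 1 → lam V ≤ lam W) →
     (∃ R : ℝ, ∀ᵐ x, R < ‖x‖ → V x = ⊤) ∧
     ∃ Q : Finset (Fin d → ℤ), Q.card ≤ N ∧
       ∀ᵐ x, V x ≠ ⊤ → ∃ q ∈ Q, ∀ i, |x i - q i| ≤ 1 / 2 := by
  intro d hd p hp0 hp1 k hk lam hlam
  have h : ∀ V, lam V = Pool.Agent.H456R3.S.lamK k V := hlam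
  obtain ⟨N, hN⟩ := Pool.Agent.TH332.Opt.cube_cover (d := d) (k := k) hd hk hp0 hp1
  refine ⟨N, fun V hV hV1 hopt => ?_⟩
  have hopt' : ∀ W : (Fin d → ℝ) → ℝ≥0∞, Measurable W → ∫⁻ x, W x ^ (-p) ≤ 1 →
      Pool.Agent.H456R3.S.lamK k V ≤ Pool.Agent.H456R3.S.lamK k W := by
    intro W hW hW1
    rw [← h, ← h]
    exact hopt W hW hW1
  exact ⟨Pool.Agent.H456R3.S.bounded_finiteness hd hk hp0 hp1 hV hV1 hopt',
    hN V hV hV1 hopt'⟩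

end Pool.Agent.Results.MP_5ab436_an.FinitenessSet
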